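import Pool.Agent.N874.PP.Lat

/-! Project PP (helper874), task PP-NRM (helper624): the normal form of a unimodular ternary
lattice over the projective line. -/

set_option autoImplicit false

open Polynomial Matrix

namespace Pool.Agent.N624.PP

/-- an isotropic vector -/
lemma isotropic (k : Type) [Field k] [Finite k] (h2 : (2 : k) ≠ 0) (a b c d e f : k) :
    ∃ x y z : k, ¬ (x = 0 ∧ y = 0 ∧ z = 0) ∧
      a * x ^ 2 + b * y ^ 2 + c * z ^ 2 + 2 * d * x * y + 2 * e * x * z + 2 * f * y * z = 0 := by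
  by_cases ha : a = 0
  · exact ⟨1, 0, 0, by simp, by rw [ha]; ring⟩
  by_cases hb : b - d ^ 2 / a = 0
  · refine ⟨-d / a, 1, 0, by simp, ?_⟩
    have : b = d ^ 2 / a := by linear_combination hb
    rw [this]
    field_simp
    ring
  · have : Fintype k := Fintype.ofFinite k
    have hcard : Fintype.card k % 2 = 1 := by
      rw [← Nat.odd_iff, ← Nat.not_even_iff_odd]
      intro he
      have hc : ringChar k = 2 := FiniteField.even_card_iff_char_two.mpr (Nat.even_iff.mp he)
      have : ((2 : ℕ) : k) = 0 := by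
        rw [← hc]
        exact CharP.cast_eq_zero k (ringChar k)
      exact h2 (by exact_mod_cast this)
    obtain ⟨X0, Y0, hXY⟩ := FiniteField.exists_root_sum_quadratic
      (f := C a * X ^ 2) (g := C (b - d ^ 2 / a) * X ^ 2 + C (c - e ^ 2 / a -
        (f - d * e / a) ^ 2 / (b - d ^ 2 / a))) (by
        rw [degree_C_mul_X_pow 2 ha]; rfl) (by
        have := degree_quadratic (a := b - d ^ 2 / a) (b := (0 : k)) (c := c - e ^ 2 / a -
          (f - d * e / a) ^ 2 / (b - d ^ 2 / a)) hb
        simpa using this) hcard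
    simp only [eval_add, eval_mul, eval_C, eval_pow, eval_X] at hXY
    obtain ⟨b', hb'⟩ : ∃ b', b' = b - d ^ 2 / a := ⟨_, rfl⟩
    rw [← hb'] at hXY hb
    refine ⟨X0 - (d * (Y0 - (f - d * e / a) / b') + e) / a, Y0 - (f - d * e / a) / b', 1,
      by simp, ?_⟩
    have hbb : b = b' + d ^ 2 / a := by rw [hb']; ring
    rw [hbb]
    rw [← hXY]
    field_simp
    ring

/-- the normal form, from two isotropic vectors -/
lemma form_of_pair {k : Type} [Field k] {a b c d e f κ x y z x' y' z' : k} (hκ : κ ≠ 0)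
    (hdet : a * (b * c - f ^ 2) - d * (d * c - e * f) + e * (d * f - b * e) = -κ ^ 2)
    (h1 : x * (a * x + d * y + e * z) + y * (d * x + b * y + f * z) +
      z * (e * x + f * y + c * z) = 0)
    (h2 : x' * (a * x' + d * y' + e * z') + y' * (d * x' + b * y' + f * z') +
      z' * (e * x' + f * y' + c * z') = 0)
    (h3 : x' * (a * x + d * y + e * z) + y' * (d * x + b * y + f * z) +
      z' * (e * x + f * y + c * z) = 1) :
    ∃ P : Matrix (Fin 3) (Fin 3) k,
      P * !![a, d, e; d, b, f; e, f, c] * Pᵀ = !![0, 0, 1; 0, 1, 0; 1, 0, 0] := by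
  obtain ⟨p, hp⟩ : ∃ p, p = a * x + d * y + e * z := ⟨_, rfl⟩
  obtain ⟨q, hq⟩ : ∃ q, q = d * x + b * y + f * z := ⟨_, rfl⟩
  obtain ⟨r, hr⟩ : ∃ r, r = e * x + f * y + c * z := ⟨_, rfl⟩
  obtain ⟨p', hp'⟩ : ∃ p', p' = a * x' + d * y' + e * z' := ⟨_, rfl⟩
  obtain ⟨q', hq'⟩ : ∃ q', q' = d * x' + b * y' + f * z' := ⟨_, rfl⟩
  obtain ⟨r', hr'⟩ : ∃ r', r' = e * x' + f * y' + c * z' := ⟨_, rfl⟩
  have key : (q * r' - r * q') * (a * (q * r' - r * q') + d * (r * p' - p * r') +
      e * (p * q' - q * p')) + (r * p' - p * r') * (d * (q * r' - r * q') +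
      b * (r * p' - p * r') + f * (p * q' - q * p')) + (p * q' - q * p') *
      (e * (q * r' - r * q') + f * (r * p' - p * r') + c * (p * q' - q * p')) =
      (a * (b * c - f ^ 2) - d * (d * c - e * f) + e * (d * f - b * e)) *
      ((x * p + y * q + z * r) * (x' * p' + y' * q' + z' * r') -
        (x' * p + y' * q + z' * r) ^ 2) := by
    rw [hp, hq, hr, hp', hq', hr']
    ring
  rw [← hp, ← hq, ← hr] at h1 h3
  rw [← hp', ← hq', ← hr'] at h2
  rw [h1, h2, h3, hdet] at key
  have h3' : x * p' + y * q' + z * r' = 1 := by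
    rw [← h3, hp, hq, hr, hp', hq', hr']
    ring
  refine ⟨!![x, y, z; (q * r' - r * q') / κ, (r * p' - p * r') / κ, (p * q' - q * p') / κ;
    x', y', z'], ?_⟩
  have hP : !![x, y, z; (q * r' - r * q') / κ, (r * p' - p * r') / κ, (p * q' - q * p') / κ;
      x', y', z'] * !![a, d, e; d, b, f; e, f, c] =
      !![p, q, r; (a * (q * r' - r * q') + d * (r * p' - p * r') + e * (p * q' - q * p')) / κ,
        (d * (q * r' - r * q') + b * (r * p' - p * r') + f * (p * q' - q * p')) / κ,
        (e * (q * r' - r * q') + f * (r * p' - p * r') + c * (p * q' - q * p')) / κ;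
        p', q', r'] := by
    ext i j
    fin_cases i <;> fin_cases j <;>
      simp [Matrix.mul_apply, Fin.sum_univ_three, hp, hq, hr, hp', hq', hr'] <;> ring
  rw [hP]
  ext i j
  fin_cases i <;> fin_cases j
  all_goals simp [Matrix.mul_apply, Fin.sum_univ_three, Matrix.transpose_apply]
  · linear_combination h1
  · ring
  · linear_combination h3
  · rw [hp, hq, hr, hp', hq', hr']
    ring
  · field_simp
    linear_combination key
  · rw [hp, hq, hr, hp', hq', hr']
    ring
  · linear_combination h3'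
  · ring
  · linear_combination h2

/-- the constant case -/
lemma const_form (k : Type) [Field k] [Finite k] (h2 : (2 : k) ≠ 0)
    (G : Matrix (Fin 3) (Fin 3) k) (hs : G.IsSymm) (κ : k) (hκ : κ ≠ 0)
    (hdet : G.det = -κ ^ 2) :
    ∃ P : Matrix (Fin 3) (Fin 3) k, P * G * Pᵀ = !![0, 0, 1; 0, 1, 0; 1, 0, 0] := by
  have h10 : G 1 0 = G 0 1 := hs.apply 0 1
  have h20 : G 2 0 = G 0 2 := hs.apply 0 2
  have h21 : G 2 1 = G 1 2 := hs.apply 1 2
  have hG : G = !![G 0 0, G 0 1, G 0 2; G 0 1, G 1 1, G 1 2; G 0 2, G 1 2, G 2 2] := by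
    ext i j
    fin_cases i <;> fin_cases j <;> simp [h10, h20, h21]
  obtain ⟨x, y, z, hne, hiso⟩ := isotropic k h2 (G 0 0) (G 1 1) (G 2 2) (G 0 1) (G 0 2) (G 1 2)
  have hdet0 : G.det ≠ 0 := by
    rw [hdet]
    exact neg_ne_zero.2 (pow_ne_zero 2 hκ)
  have hGv : ¬ (G 0 0 * x + G 0 1 * y + G 0 2 * z = 0 ∧ G 0 1 * x + G 1 1 * y + G 1 2 * z = 0 ∧
      G 0 2 * x + G 1 2 * y + G 2 2 * z = 0) := by
    rintro ⟨e0, e1, e2⟩
    have h0 : G *ᵥ ![x, y, z] = 0 := by
      ext i
      fin_cases i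
      · simpa [Matrix.mulVec, dotProduct, Fin.sum_univ_three] using e0
      · simpa [Matrix.mulVec, dotProduct, Fin.sum_univ_three, h10] using e1
      · simpa [Matrix.mulVec, dotProduct, Fin.sum_univ_three, h20, h21] using e2
    have hv := Matrix.eq_zero_of_mulVec_eq_zero hdet0 h0
    refine hne ⟨?_, ?_, ?_⟩
    · simpa using congrFun hv 0
    · simpa using congrFun hv 1
    · simpa using congrFun hv 2
  have hdet' : G 0 0 * (G 1 1 * G 2 2 - G 1 2 ^ 2) - G 0 1 * (G 0 1 * G 2 2 - G 0 2 * G 1 2) +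
      G 0 2 * (G 0 1 * G 1 2 - G 1 1 * G 0 2) = -κ ^ 2 := by
    rw [← hdet, Matrix.det_fin_three, h10, h20, h21]
    ring
  obtain ⟨s, t, w, hu⟩ : ∃ s t w : k, s * (G 0 0 * x + G 0 1 * y + G 0 2 * z) +
      t * (G 0 1 * x + G 1 1 * y + G 1 2 * z) + w * (G 0 2 * x + G 1 2 * y + G 2 2 * z) = 1 := by
    by_cases e0 : G 0 0 * x + G 0 1 * y + G 0 2 * z = 0
    · by_cases e1 : G 0 1 * x + G 1 1 * y + G 1 2 * z = 0
      · have e2 : G 0 2 * x + G 1 2 * y + G 2 2 * z ≠ 0 := fun h => hGv ⟨e0, e1, h⟩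
        exact ⟨0, 0, (G 0 2 * x + G 1 2 * y + G 2 2 * z)⁻¹, by
          rw [inv_mul_cancel₀ e2]; ring⟩
      · exact ⟨0, (G 0 1 * x + G 1 1 * y + G 1 2 * z)⁻¹, 0, by
          rw [inv_mul_cancel₀ e1]; ring⟩
    · exact ⟨(G 0 0 * x + G 0 1 * y + G 0 2 * z)⁻¹, 0, 0, by
        rw [inv_mul_cancel₀ e0]; ring⟩
  have hiso' : x * (G 0 0 * x + G 0 1 * y + G 0 2 * z) + y * (G 0 1 * x + G 1 1 * y + G 1 2 * z) +
      z * (G 0 2 * x + G 1 2 * y + G 2 2 * z) = 0 := by
    linear_combination hiso
  obtain ⟨n, hn⟩ : ∃ n, n = s * (G 0 0 * s + G 0 1 * t + G 0 2 * w) +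
    t * (G 0 1 * s + G 1 1 * t + G 1 2 * w) + w * (G 0 2 * s + G 1 2 * t + G 2 2 * w) := ⟨_, rfl⟩
  rw [hG]
  refine form_of_pair (x' := s - n / 2 * x) (y' := t - n / 2 * y) (z' := w - n / 2 * z) hκ hdet'
    hiso' ?_ ?_
  · have h4 : n / 2 + n / 2 = n := by field_simp; ring
    linear_combination (-hn) - h4 + (n / 2) ^ 2 * hiso' - 2 * (n / 2) * hu
  · linear_combination hu - n / 2 * hiso'

/-- The normal form of a unimodular ternary lattice over the projective line. -/
theorem nrm : Pool.Agent.N874.PP.S_NRM := by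
  intro k _ _ h2 G w κ hs hκ hdet hmono hsum hdeg
  have h10 : G 1 0 = G 0 1 := hs.apply 0 1
  have h20 : G 2 0 = G 0 2 := hs.apply 0 2
  have h21 : G 2 1 = G 1 2 := hs.apply 1 2
  have hw01 : w 0 ≤ w 1 := hmono (by decide)
  have hw12 : w 1 ≤ w 2 := hmono (by decide)
  rw [Fin.sum_univ_three] at hsum
  have hz : ∀ i j, w i + w j < 0 → G i j = 0 := by
    intro i j hij
    rcases hdeg i j with h | h
    · exact h
    · have : (0 : ℤ) ≤ (G i j).natDegree := Int.natCast_nonneg _
      omega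
  have hd0 : G.det ≠ 0 := by
    rw [hdet]
    exact neg_ne_zero.2 (C_ne_zero.2 (pow_ne_zero 2 hκ))
  rw [Matrix.det_fin_three, h10, h20, h21] at hdet
  have hdet0 : G 0 0 * G 1 1 * G 2 2 - G 0 0 * G 1 2 * G 1 2 - G 0 1 * G 0 1 * G 2 2 +
      G 0 1 * G 1 2 * G 0 2 + G 0 2 * G 0 1 * G 1 2 - G 0 2 * G 1 1 * G 0 2 ≠ 0 := by
    rw [hdet]
    exact neg_ne_zero.2 (C_ne_zero.2 (pow_ne_zero 2 hκ))
  have hw1 : w 1 = 0 := by
    rcases lt_trichotomy (w 1) 0 with h | h | h
    · exfalso
      apply hdet0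
      rw [hz 0 0 (by omega), hz 0 1 (by omega), hz 1 1 (by omega)]
      ring
    · exact h
    · exfalso
      apply hdet0
      rw [hz 0 0 (by omega), hz 0 1 (by omega), hz 0 2 (by omega)]
      ring
  obtain ⟨m, hm⟩ : ∃ m : ℕ, w 2 = m := ⟨(w 2).toNat, by omega⟩
  have hw0 : w 0 = -m := by omega
  rcases Nat.eq_zero_or_pos m with hm0 | hmpos
  · -- the constant case
    have hw : ∀ i, w i = 0 := by
      intro i
      fin_cases i
      · simp only [Fin.zero_eta]; omega
      · simp only [Fin.mk_one]; omega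
      · simp only [Fin.reduceFinMk]; omega
    have hconst : ∀ i j, G i j = C ((G i j).coeff 0) := by
      intro i j
      rcases hdeg i j with h | h
      · rw [h]; simp
      · apply eq_C_of_natDegree_eq_zero
        rw [hw, hw] at h
        omega
    obtain ⟨G0, hG0⟩ : ∃ G0 : Matrix (Fin 3) (Fin 3) k, G0 = Matrix.of (fun i j => (G i j).coeff 0) :=
      ⟨_, rfl⟩
    have hG : G = G0.map C := by
      ext1 i j
      rw [Matrix.map_apply, hG0]
      exact hconst i j
    have hs0 : G0.IsSymm := by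
      ext1 i j
      rw [Matrix.transpose_apply, hG0]
      simp only [Matrix.of_apply]
      rw [hs.apply i j]
    have hdet1 : G0.det = -κ ^ 2 := by
      have h3 : G.det = C G0.det := by
        rw [hG]
        exact (RingHom.map_det C G0).symm
      have h4 : G.det = -C (κ ^ 2) := by
        rw [Matrix.det_fin_three, h10, h20, h21]
        exact hdet
      rw [h4, ← C_neg] at h3
      exact (C_injective h3).symm
    obtain ⟨P, hP⟩ := const_form k h2 G0 hs0 κ hκ hdet1
    have hPd : P.det ≠ 0 := by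
      intro h0
      have h3 := congrArg Matrix.det hP
      rw [Matrix.det_mul, Matrix.det_mul, Matrix.det_transpose, h0] at h3
      simp [Matrix.det_fin_three] at h3
    refine ⟨0, P.map C, ?_, ?_, ?_⟩
    · have h3 : (P.map C).det = C P.det := (RingHom.map_det C P).symm
      rw [h3]
      exact isUnit_C.2 (isUnit_iff_ne_zero.2 hPd)
    · rw [hG, ← Matrix.transpose_map, ← Matrix.map_mul, ← Matrix.map_mul, hP]
      ext i j
      fin_cases i <;> fin_cases j <;> simp
    · intro i j
      right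
      rw [Matrix.map_apply, natDegree_C, hw j]
      fin_cases i <;> simp
  · -- the split case
    have hm' : (0 : ℤ) < m := by exact_mod_cast hmpos
    have z00 : G 0 0 = 0 := hz 0 0 (by omega)
    have z01 : G 0 1 = 0 := hz 0 1 (by omega)
    have hc : ∀ i j, w i + w j = 0 → ∃ g : k, G i j = C g := by
      intro i j hij
      rcases hdeg i j with h | h
      · exact ⟨0, by rw [h]; simp⟩
      · exact ⟨(G i j).coeff 0, eq_C_of_natDegree_eq_zero (by omega)⟩
    obtain ⟨g, hg⟩ := hc 0 2 (by omega)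
    obtain ⟨h, hh⟩ := hc 1 1 (by omega)
    rw [z00, z01, hg, hh] at hdet
    have hgh : g ^ 2 * h = κ ^ 2 := by
      have h3 : C (g ^ 2 * h) = (C (κ ^ 2) : k[X]) := by
        have h4 : C (g ^ 2 * h) = C g * C h * (C g : k[X]) := by
          rw [← C_mul, ← C_mul]; congr 1; ring
        rw [h4]
        linear_combination -hdet
      exact C_injective h3
    have hg0 : g ≠ 0 := by
      rintro rfl
      apply pow_ne_zero 2 hκ
      rw [← hgh]; ring
    have hh0 : h ≠ 0 := by
      rintro rfl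
      apply pow_ne_zero 2 hκ
      rw [← hgh]; ring
    obtain ⟨p, hp⟩ : ∃ p, p = G 1 2 := ⟨_, rfl⟩
    obtain ⟨r, hr⟩ : ∃ r, r = G 2 2 := ⟨_, rfl⟩
    have hpd : p = 0 ∨ (p.natDegree : ℤ) ≤ m := by
      rw [hp]
      rcases hdeg 1 2 with h | h
      · exact Or.inl h
      · right; omega
    have hrd : r = 0 ∨ (r.natDegree : ℤ) ≤ 2 * m := by
      rw [hr]
      rcases hdeg 2 2 with h | h
      · exact Or.inl h
      · right; omega
    have hG : G = !![0, 0, C g; 0, C h, p; C g, p, r] := by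
      ext1 i j
      fin_cases i <;> fin_cases j <;> simp [z00, z01, h10, h20, h21, hg, hh, hp, hr]
    have c1 : (C g : k[X]) * C g⁻¹ = 1 := by rw [← C_mul, mul_inv_cancel₀ hg0, C_1]
    have c2 : (C h : k[X]) * C h⁻¹ = 1 := by rw [← C_mul, mul_inv_cancel₀ hh0, C_1]
    have c3 : (C g : k[X]) * C g * C h * (C κ⁻¹ * C κ⁻¹) = 1 := by
      rw [← C_mul, ← C_mul, ← C_mul, ← C_mul, ← C_1]
      congr 1
      field_simp
      linear_combination hgh
    have c4 : (2 : k[X]) * C (2 : k)⁻¹ = 1 := by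
      have : (2 : k[X]) = C 2 := (map_ofNat C 2).symm
      rw [this, ← C_mul, mul_inv_cancel₀ h2, C_1]
    have c5 : (C κ : k[X]) * C κ⁻¹ = 1 := by rw [← C_mul, mul_inv_cancel₀ hκ, C_1]
    refine ⟨m, !![C g⁻¹, 0, 0; 0, C g * C κ⁻¹, 0;
      -((r - p ^ 2 * C h⁻¹) * C g⁻¹ * C (2 : k)⁻¹), -(p * C h⁻¹), 1], ?_, ?_, ?_⟩
    · have hdU : Matrix.det !![C g⁻¹, 0, 0; 0, C g * C κ⁻¹, 0;
          -((r - p ^ 2 * C h⁻¹) * C g⁻¹ * C (2 : k)⁻¹), -(p * C h⁻¹), 1] = C κ⁻¹ := by
        rw [Matrix.det_fin_three]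
        simp only [Matrix.of_apply, Matrix.cons_val', Matrix.cons_val_zero, Matrix.cons_val_one,
          Matrix.cons_val_two, Matrix.head_cons, Matrix.tail_cons, Matrix.head_fin_const,
          Matrix.cons_val_fin_one, Matrix.empty_val']
        simp
        linear_combination C κ⁻¹ * c1
      rw [hdU]
      exact isUnit_C.2 (isUnit_iff_ne_zero.2 (inv_ne_zero hκ))
    · rw [hG]
      ext1 i j
      fin_cases i <;> fin_cases j
      all_goals try simp [Matrix.mul_apply, Fin.sum_univ_three, Matrix.transpose_apply]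
      · linear_combination c1
      · linear_combination c3
      · linear_combination (-(C g * C κ⁻¹ * p)) * c2
      · linear_combination c1
      · left
        linear_combination (-p) * c2
      · linear_combination (-(r - p ^ 2 * C h⁻¹) * (2 * C (2 : k)⁻¹)) * c1 -
          (r - p ^ 2 * C h⁻¹) * c4 + p ^ 2 * C h⁻¹ * c2
    · have d1 : ∀ (q : k[X]) (x : k) (n : ℤ), (q = 0 ∨ (q.natDegree : ℤ) ≤ n) →
          q * C x = 0 ∨ ((q * C x).natDegree : ℤ) ≤ n := by
        intro q x n hq
        rcases hq with h | h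
        · left; rw [h, zero_mul]
        · right
          have := natDegree_mul_C_le q x
          omega
      have d2 : ∀ (q : k[X]) (n : ℤ), (q = 0 ∨ (q.natDegree : ℤ) ≤ n) →
          -q = 0 ∨ ((-q).natDegree : ℤ) ≤ n := by
        intro q n hq
        rcases hq with h | h
        · left; rw [h, neg_zero]
        · right; rwa [natDegree_neg]
      have d3 : r - p ^ 2 * C h⁻¹ = 0 ∨ ((r - p ^ 2 * C h⁻¹).natDegree : ℤ) ≤ 2 * m := by
        right
        have e1 : r.natDegree ≤ 2 * m := by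
          rcases hrd with h | h
          · rw [h]; simp
          · omega
        have e2 : p.natDegree ≤ m := by
          rcases hpd with h | h
          · rw [h]; simp
          · omega
        have e3 : (p ^ 2 * C h⁻¹).natDegree ≤ 2 * m := by
          refine (natDegree_mul_C_le _ _).trans ?_
          refine natDegree_pow_le.trans ?_
          omega
        have e4 := natDegree_sub_le_of_le e1 e3
        rw [max_self] at e4
        exact_mod_cast e4
      intro i j
      fin_cases i <;> fin_cases j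
      · right
        simp [hw0]
      · left; simp
      · left; simp
      · left; simp
      · right
        simp [hw1]
        rw [← C_mul, natDegree_C]
      · left; simp
      · have := d2 _ _ (d1 _ (2 : k)⁻¹ _ (d1 _ g⁻¹ _ d3))
        rcases this with h | h
        · left; exact h
        · right
          refine h.trans ?_
          simp [hw0]
          omega
      · have := d2 _ _ (d1 _ h⁻¹ _ hpd)
        rcases this with h | h
        · left; exact h
        · right
          refine h.trans ?_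
          simp [hw1]
      · right
        simp [hm]

end Pool.Agent.N624.PP
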